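import Pool.Agent.Helper99.PG.GoalsF

/-!
PROJECT C2, target (a), packet PG-NG: supports without gaps.
-/

set_option autoImplicit false

namespace Pool.Agent.Helper31.PG

open Pool.Agent.Helper36.SC Pool.Agent.Helper37.Arb Pool.Agent.Helper52.C2
open Pool.Agent.Helper99.PG

theorem univ_dir : (Finset.univ : Finset (Dir Unit)) = {Dir.X, Dir.Y, Dir.V ()} := by
  ext d
  rcases d with _ | _ | ⟨⟩ <;> simp

theorem sum_dir (f : Dir Unit → ℝ) : ∑ d, f d = f .X + f .Y + f (.V ()) := by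
  rw [univ_dir, Finset.sum_insert (by simp), Finset.sum_insert (by simp), Finset.sum_singleton]
  ring

theorem quad_dir (M : Dir Unit → Dir Unit → ℝ) (v : Dir Unit → ℝ) :
    quad M v = v .X * M .X .X * v .X + v .X * M .X .Y * v .Y + v .X * M .X (.V ()) * v (.V ()) +
      (v .Y * M .Y .X * v .X + v .Y * M .Y .Y * v .Y + v .Y * M .Y (.V ()) * v (.V ())) +
      (v (.V ()) * M (.V ()) .X * v .X + v (.V ()) * M (.V ()) .Y * v .Y +
        v (.V ()) * M (.V ()) (.V ()) * v (.V ())) := by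
  unfold quad
  rw [sum_dir]
  simp only [sum_dir]

/-- a vector with the three given coordinates -/
def vec3 (x y z : ℝ) : Dir Unit → ℝ
  | .X => x
  | .Y => y
  | .V _ => z

/-- the linear algebra of part (2) -/
theorem form3 (a b c p v lx ly lz : ℝ) (hc : 0 < c) (hp : 0 < p) (hv : 0 ≤ v)
    (h : ∀ x y z : ℝ, lx * x + ly * y + lz * z = 0 →
      a * x ^ 2 + 2 * b * x * y + c * y ^ 2 + 2 * p * x * z + v * z ^ 2 ≤ 0) : False := by
  set q := |a - b ^ 2 / c| + 1 with hq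
  have hq0 : 0 < q := by positivity
  set e := p / q with he
  have he0 : 0 < e := by positivity
  have hqw : 0 < e ^ 2 * (a - b ^ 2 / c) + 2 * p * e + v := by
    have h1 : -|a - b ^ 2 / c| ≤ a - b ^ 2 / c := neg_abs_le _
    have h2 : e * q = p := by rw [he]; field_simp
    have h3 : -p ≤ e * (a - b ^ 2 / c) := by nlinarith
    nlinarith [mul_pos he0 hp, mul_le_mul_of_nonneg_left h3 he0.le]
  -- `w = (e, - b e / c, 1)`
  set lw := lx * e + ly * (-(b * e / c)) + lz with hlw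
  have key : ∀ s t : ℝ, s * ly + t * lw = 0 →
      s ^ 2 * c + t ^ 2 * (e ^ 2 * (a - b ^ 2 / c) + 2 * p * e + v) ≤ 0 := by
    intro s t hst
    have h1 := h (t * e) (s + t * (-(b * e / c))) t (by rw [← hst, hlw]; ring)
    refine le_trans (le_of_eq ?_) h1
    field_simp
    ring
  by_cases h0 : ly = 0
  · have h1 := key 1 0 (by rw [h0]; ring)
    nlinarith
  · have h1 := key lw (-ly) (by ring)
    have h2 : 0 < (-ly) ^ 2 := by rw [neg_sq]; positivity
    have h3 := mul_pos h2 hqw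
    nlinarith [mul_nonneg (sq_nonneg lw) hc.le]

theorem pre_nonneg (f : LaurentPolynomial ℝ) (hf : ∀ i, 0 ≤ f.coeff i) (k : ℤ) : 0 ≤ pre f k := by
  unfold pre
  refine Finset.sum_nonneg fun i _ => ?_
  split_ifs
  · exact hf i
  · exact le_rfl

theorem pre_mono (f : LaurentPolynomial ℝ) (hf : ∀ i, 0 ≤ f.coeff i) {k m : ℤ} (h : k ≤ m) :
    pre f k ≤ pre f m := by
  unfold pre
  refine Finset.sum_le_sum fun i _ => ?_
  split_ifs with h1 h2
  · exact le_rfl
  · omega
  · exact hf i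
  · exact le_rfl

theorem pre_zero (f : LaurentPolynomial ℝ) : ∃ N : ℤ, ∀ k, k < N → pre f k = 0 := by
  obtain ⟨N, hN⟩ := f.coeff.support.bddBelow
  refine ⟨N, fun k hk => ?_⟩
  unfold pre
  refine Finset.sum_eq_zero fun i hi => ?_
  rw [if_neg]
  have := hN hi
  omega

/-- part (1): log-concavity of `pre L` -/
theorem logc (h2 : GoalOpTwo) (S : Tg) (hS : S.HH1) (i : ℤ) :
    pre S.L (i + 1) * pre S.L (i - 1) ≤ pre S.L i ^ 2 := by
  obtain ⟨N, hN⟩ := pre_zero S.R
  set n : ℕ := (i + 2 - N).toNat with hn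
  have hnn : i + 2 - N ≤ n := Int.self_le_toNat _
  have e : ∀ k ≤ i + 1, S.h n k = pre S.L k := by
    intro k hk
    unfold Tg.h
    rw [hN _ (by omega), sub_zero]
  have h3 := h2 Unit (S.win n (i - 1)) rfl ?_ _ trivial trivial (hS.win n (i - 1))
  · have e1 : S.win n (i - 1) .X .X = pre S.L (i + 1) := by
      show S.h n (i - 1 + 2) = _
      rw [show i - 1 + 2 = i + 1 by ring, e _ le_rfl]
    have e2 : S.win n (i - 1) .X .Y = pre S.L i := by
      show S.h n (i - 1 + 1) = _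
      rw [show i - 1 + 1 = i by ring, e _ (by omega)]
    have e3 : S.win n (i - 1) .Y .Y = pre S.L (i - 1) := by
      show S.h n (i - 1) = _
      rw [e _ (by omega)]
    rw [e1, e2, e3] at h3
    exact h3
  · show 0 ≤ S.h n (i - 1 + 2)
    rw [e _ (by omega)]
    exact pre_nonneg _ hS.nonneg.L _

/-- part (2) -/
theorem part2 (hp : GoalPre) (S : Tg) (hS : S.HH1) (i : ℤ) (h0 : S.F.coeff i = 0)
    (h1 : 0 < S.F.coeff (i + 1)) : S.F.coeff (i - 1) + S.L.coeff i = 0 := by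
  have e1 : S.h 1 i = S.F.coeff (i - 1) + S.L.coeff i := by
    unfold Tg.h
    rw [hp.1 S (i - 1), ← hp.2.1 S.L i]
    ring
  have hF : ∀ k, S.h 0 k = S.F.coeff k := by
    intro k
    unfold Tg.h
    rw [hp.1 S k, sub_zero]
  by_contra hne
  have hc : 0 < S.h 1 i := by
    rw [e1]
    exact lt_of_le_of_ne (add_nonneg (hS.nonneg.F _) (hS.nonneg.L _)) (Ne.symm hne)
  obtain ⟨l, hl⟩ := hS.win 1 i
  refine form3 (S.h 1 (i + 2)) (S.h 1 (i + 1)) (S.h 1 i) (S.F.coeff (i + 1))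
    (max (S.h (-1) i) 0) (l .X) (l .Y) (l (.V ())) hc h1 (le_max_right _ _) ?_
  intro x y z hxyz
  have h3 := hl (vec3 x y z) ?_ ?_
  · rw [quad_dir] at h3
    refine le_trans (le_of_eq ?_) h3
    have w1 : S.win 1 i .X .X = S.h 1 (i + 2) := by simp [Tg.win]
    have w2 : S.win 1 i .X .Y = S.h 1 (i + 1) := by simp [Tg.win]
    have w3 : S.win 1 i .Y .X = S.h 1 (i + 1) := by simp [Tg.win]
    have w4 : S.win 1 i .Y .Y = S.h 1 i := by simp [Tg.win]
    have w5 : S.win 1 i .X (.V ()) = S.F.coeff (i + 1) := by simp [Tg.win, hF]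
    have w6 : S.win 1 i (.V ()) .X = S.F.coeff (i + 1) := by simp [Tg.win, hF]
    have w7 : S.win 1 i .Y (.V ()) = 0 := by simp [Tg.win, hF, h0]
    have w8 : S.win 1 i (.V ()) .Y = 0 := by simp [Tg.win, hF, h0]
    have w9 : S.win 1 i (.V ()) (.V ()) = max (S.h (-1) i) 0 := by simp [Tg.win]
    rw [w1, w2, w3, w4, w5, w6, w7, w8, w9]
    simp only [vec3]
    ring
  · rintro (_ | _ | k) hk
    · exact absurd trivial hk
    · exact absurd trivial hk
    · exact absurd le_rfl hk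
  · rw [sum_dir]
    exact hxyz

theorem last_zero (F : ℤ → ℝ) (d : ℤ) (hd : F d ≠ 0) : ∀ (n : ℕ) (b : ℤ), b + n = d → F b = 0 →
    ∃ i, b ≤ i ∧ i < d ∧ F i = 0 ∧ F (i + 1) ≠ 0 := by
  intro n
  induction n with
  | zero =>
    intro b hb h0
    rw [Nat.cast_zero, add_zero] at hb
    rw [hb] at h0
    exact absurd h0 hd
  | succ n ih =>
    intro b hb h0
    by_cases h1 : F (b + 1) = 0
    · obtain ⟨i, h2, h3, h4, h5⟩ := ih (b + 1) (by push_cast at hb ⊢; omega) h1
      exact ⟨i, by omega, h3, h4, h5⟩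
    · exact ⟨b, le_rfl, by push_cast at hb; omega, h0, h1⟩

theorem noGap1 (hp : GoalPre) (h2 : GoalOpTwo) (S : Tg) (hS : S.HH1) (a b d : ℤ) (hab : a < b)
    (hbd : b < d) (ha : S.F.coeff a ≠ 0) (hd : S.F.coeff d ≠ 0) : S.F.coeff b ≠ 0 := by
  intro hb
  obtain ⟨i, hi1, hi2, hi3, hi4⟩ := last_zero (fun k => S.F.coeff k) d hd (d - b).toNat b
    (by rw [Int.toNat_of_nonneg (by omega)]; ring) hb
  have hpos : 0 < S.F.coeff (i + 1) := lt_of_le_of_ne (hS.nonneg.F _) (Ne.symm hi4)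
  have h3 := part2 hp S hS i hi3 hpos
  have hLi : S.L.coeff i = 0 := by
    have q1 := hS.nonneg.F (i - 1)
    have q2 := hS.nonneg.L i
    linarith
  have hL1 : 0 < S.L.coeff (i + 1) := by
    have q1 := hp.1 S i
    have q2 := hp.1 S (i + 1)
    have q3 := hp.2.1 S.L (i + 1)
    have q4 := hp.2.1 S.R (i + 1)
    rw [show i + 1 - 1 = i by ring] at q3 q4
    have q5 := hS.nonneg.R (i + 1)
    linarith
  have hc1 : pre S.L i = pre S.L (i - 1) := by
    have q3 := hp.2.1 S.L i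
    linarith
  have hc2 : pre S.L (i + 1) = pre S.L i + S.L.coeff (i + 1) := by
    have q3 := hp.2.1 S.L (i + 1)
    rw [show i + 1 - 1 = i by ring] at q3
    linarith
  have hc : 0 < pre S.L (i - 1) := by
    have q1 := pre_mono S.L hS.nonneg.L (show a ≤ i - 1 by omega)
    have q2 := hp.1 S a
    have q3 := pre_nonneg S.R hS.nonneg.R a
    have q4 : 0 < S.F.coeff a := lt_of_le_of_ne (hS.nonneg.F _) (Ne.symm ha)
    linarith
  have h4 := logc h2 S hS i
  rw [hc2, hc1] at h4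
  nlinarith [mul_pos hL1 hc]

/-- **Packet PG-NG.** -/
theorem noGap : GoalNoGap := by
  intro hp h2 hX
  refine ⟨fun S hS i j k hij hjk hi hk => noGap1 hp h2 S hS i j k hij hjk hi hk, ?_⟩
  intro A B hAB i j k hij hjk hi hk
  have h1 := hAB (U 1) hX
  have h3 : (bes A B (U 1)).F = B := by
    show B * geo 1 = B
    unfold geo
    simp
  have h4 := noGap1 hp h2 _ h1 i j k hij hjk
  rw [h3] at h4
  exact h4 hi hk

end Pool.Agent.Helper31.PG
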